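import Pool.Agent.R121.ShufflePoset

set_option autoImplicit false

/-!
# The inversions of the 2143-avoiding linear extensions of `EN_{s,2}`

A linear extension of a product of a 2-chain and an `s`-chain is a shuffle of the two `s`-chains and
corresponds to a Catalan word `w`. It avoids `2143` if and only if the height of `w` is at most `2`, and
its number of inversions is the sum of `2 ·` (number of ones before) over the ones and of the position
over the zeros.
-/

namespace Pool.Agent.Results.MP_490dbb_co.InvENs2

open Finset Polynomial Pool.Agent.R121.Sh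

/-- The order of `EN_{s,t}` on `{0, …, st-1}` (the label of the problem is `x + 1`):
`x ⪯ y` iff `x % t ≤ y % t` and `x / t ≥ y / t`. -/
def ENle (t x y : ℕ) : Prop := x % t ≤ y % t ∧ y / t ≤ x / t

/-- the chains -/
def γ (s : ℕ) (b : Bool) (c : ℕ) : ℕ := if b = true then 2 * s - 1 - 2 * c else 2 * s - 2 - 2 * c

lemma chains (s : ℕ) : Chains s (γ s) (ENle 2) where
  lt := by
    intro b c hc
    unfold γ
    split_ifs <;> omega
  surj := by
    intro x hx
    by_cases h : x % 2 = 0
    · exact ⟨false, s - 1 - x / 2, by omega, by simp [γ]; omega⟩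
    · exact ⟨true, s - 1 - x / 2, by omega, by simp [γ]; omega⟩
  inj := by
    intro b c b' c' hc hc' h
    unfold γ at h
    cases b <;> cases b' <;> simp at h ⊢ <;> omega
  rel := by
    intro b c b' c' hc hc'
    unfold γ ENle
    cases b <;> cases b' <;> simp <;> omega

/-- `π` avoids `2143`. -/
def Avoids2143 {m : ℕ} (π : Equiv.Perm (Fin m)) : Prop :=
  ¬ ∃ a b c d : Fin m, a < b ∧ b < c ∧ c < d ∧ π b < π a ∧ π a < π d ∧ π d < π c

/-- the number of inversions -/
def inv {m : ℕ} (π : Equiv.Perm (Fin m)) : ℕ :=
  (univ.filter fun p : Fin m × Fin m => p.1 < p.2 ∧ π p.2 < π p.1).card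

/-- height at most `2` -/
def Low {m : ℕ} (w : Fin m → Bool) : Prop := ∀ i ≤ m, cnt w false i ≤ cnt w true i + 2

lemma pos_spec {s : ℕ} {π : Equiv.Perm (Fin (2 * s))} (hπ : LE (ENle 2) π) (b : Bool) {c : ℕ}
    (hc : c < s) : ∃ p : Fin (2 * s), (π p : ℕ) = γ s b c ∧ word s (γ s) π p = b ∧
      cnt (word s (γ s) π) b p = c := by
  have h := chains s
  refine ⟨π.symm ⟨γ s b c, by have := h.lt b c hc; omega⟩, by simp, ?_, ?_⟩
  · apply word_eq h rfl π _ hc
    simp
  · have h1 : word s (γ s) π (π.symm ⟨γ s b c, by have := h.lt b c hc; omega⟩) = b := by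
      apply word_eq h rfl π _ hc
      simp
    have h3 := (formula h rfl hπ (π.symm ⟨γ s b c, by have := h.lt b c hc; omega⟩))
    rw [h1] at h3
    simp only [Equiv.apply_symm_apply] at h3
    exact (h.inj _ _ _ _ hc h3.2 h3.1).2.symm

/-- non-inversions are pairs zero-one -/
lemma noninv {s : ℕ} {π : Equiv.Perm (Fin (2 * s))} (hπ : LE (ENle 2) π) {i j : Fin (2 * s)}
    (hij : i < j) : π i < π j ↔ word s (γ s) π i = false ∧ word s (γ s) π j = true ∧
      cnt (word s (γ s) π) true j ≤ cnt (word s (γ s) π) false i := by
  set w := word s (γ s) π with hw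
  have h1 := formula (chains s) rfl hπ i
  have h2 := formula (chains s) rfl hπ j
  have h3 := cnt_lt w i (show i.1 < j.1 from hij)
  have h4 := word_ballot (chains s) rfl hπ (i.1 + 1) (by omega)
  have h5 := cnt_succ w false i
  have h6 := cnt_succ w true i
  have h7 := cnt_mono w false (show i.1 ≤ j.1 from hij.le)
  rw [← hw] at h1 h2 h4
  rw [Fin.lt_def, h1.1, h2.1]
  cases h8 : w i <;> cases h9 : w j <;> rw [h8] at h1 h3 h5 h6 <;> rw [h9] at h2 <;>
    simp only [γ] <;> simp at h5 h6 ⊢ <;> omega

lemma avoids_iff {s : ℕ} {π : Equiv.Perm (Fin (2 * s))} (hπ : LE (ENle 2) π) :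
    Avoids2143 π ↔ Low (word s (γ s) π) := by
  set w := word s (γ s) π with hw
  constructor
  · intro hav i hi
    by_contra hlt
    push Not at hlt
    apply hav
    have hp : cnt w false i ≤ s := by
      have := cnt_mono w false hi
      rwa [hw, word_false (chains s) rfl] at this
    obtain ⟨a, ha1, ha2, ha3⟩ := pos_spec hπ false (show cnt w false i - 2 < s by omega)
    obtain ⟨b, hb1, hb2, hb3⟩ := pos_spec hπ false (show cnt w false i - 1 < s by omega)
    obtain ⟨c, hc1, hc2, hc3⟩ := pos_spec hπ true (show cnt w true i < s by omega)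
    obtain ⟨d, hd1, hd2, hd3⟩ := pos_spec hπ true (show cnt w true i + 1 < s by omega)
    rw [← hw] at ha2 ha3 hb2 hb3 hc2 hc3 hd2 hd3
    have hab : a < b := by
      by_contra hh
      have := cnt_mono w false (show b.1 ≤ a.1 by rw [not_lt] at hh; exact hh)
      omega
    have hbi : b.1 < i := by
      by_contra hh
      have := cnt_mono w false (show i ≤ b.1 by omega)
      omega
    have hic : i ≤ c.1 := by
      by_contra hh
      have := cnt_lt w c (show c.1 < i by omega)
      rw [hc2] at this
      omega
    have hcd : c < d := by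
      by_contra hh
      have := cnt_mono w true (show d.1 ≤ c.1 by rw [not_lt] at hh; exact hh)
      omega
    refine ⟨a, b, c, d, hab, by rw [Fin.lt_def]; omega, hcd, ?_, ?_, ?_⟩
    · rw [Fin.lt_def, ha1, hb1]
      simp [γ]
      omega
    · rw [Fin.lt_def, ha1, hd1]
      simp [γ]
      omega
    · rw [Fin.lt_def, hc1, hd1]
      simp [γ]
      omega
  · rintro hlow ⟨a, b, c, d, h1, h2, h3, h4, h5, h6⟩
    have k1 := (noninv hπ (h1.trans (h2.trans h3))).1 h5
    have k2 := (noninv hπ (h2.trans h3)).1 (h4.trans h5)
    have k3 := (noninv hπ h2).1 (h4.trans (h5.trans h6))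
    rw [← hw] at k1 k2 k3
    have k4 := cnt_lt w a (show a.1 < b.1 from h1)
    have k5 := cnt_lt w b (show b.1 < c.1 from h2)
    have k6 := cnt_lt w c (show c.1 < d.1 from h3)
    rw [k1.1] at k4
    rw [k2.1] at k5
    rw [k3.2.1] at k6
    have := hlow c.1 (by omega)
    omega

lemma card_lt {m : ℕ} (w : Fin m → Bool) (c : Bool) (k : ℕ) (j : ℕ) (hj : j ≤ m) :
    (univ.filter fun i : Fin m => i.1 < j ∧ w i = c ∧ cnt w c i < k).card = min (cnt w c j) k := by
  induction j with
  | zero => simp [cnt]
  | succ j ih =>
    have ih := ih (by omega)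
    have h1 := cnt_succ w c ⟨j, by omega⟩
    simp only at h1
    rw [h1]
    by_cases h2 : w ⟨j, by omega⟩ = c ∧ cnt w c j < k
    · have : (univ.filter fun i : Fin m => i.1 < j + 1 ∧ w i = c ∧ cnt w c i < k) =
          insert ⟨j, by omega⟩ (univ.filter fun i : Fin m => i.1 < j ∧ w i = c ∧ cnt w c i < k) := by
        ext i
        simp only [mem_filter, mem_univ, true_and, mem_insert]
        constructor
        · rintro ⟨h3, h4⟩
          by_cases h5 : i.1 = j
          · exact Or.inl (Fin.ext h5)
          · exact Or.inr ⟨by omega, h4⟩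
        · rintro (rfl | ⟨h3, h4⟩)
          · exact ⟨by simp, h2⟩
          · exact ⟨by omega, h4⟩
      rw [this, card_insert_of_notMem (by simp), ih, if_pos h2.1]
      omega
    · have : (univ.filter fun i : Fin m => i.1 < j + 1 ∧ w i = c ∧ cnt w c i < k) =
          (univ.filter fun i : Fin m => i.1 < j ∧ w i = c ∧ cnt w c i < k) := by
        ext i
        simp only [mem_filter, mem_univ, true_and]
        constructor
        · rintro ⟨h3, h4⟩
          refine ⟨?_, h4⟩
          rcases Nat.lt_or_ge i.1 j with h5 | h5
          · exact h5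
          · exfalso
            have hi : i = ⟨j, by omega⟩ := Fin.ext (by simp; omega)
            rw [hi] at h4
            exact h2 h4
        · rintro ⟨h3, h4⟩
          exact ⟨by omega, h4⟩
      rw [this, ih]
      split_ifs with h3
      · have : ¬ cnt w c j < k := fun h => h2 ⟨h3, h⟩
        omega
      · rfl

/-- the number of inversions in terms of the word -/
def winv {m : ℕ} (w : Fin m → Bool) : ℕ :=
  ∑ j : Fin m, if w j = true then 2 * (j.1 - cnt w false j) else j.1

lemma inv_eq {s : ℕ} {π : Equiv.Perm (Fin (2 * s))} (hπ : LE (ENle 2) π) :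
    inv π = winv (word s (γ s) π) := by
  set w := word s (γ s) π with hw
  have h1 : inv π = ∑ j : Fin (2 * s), (univ.filter fun i : Fin (2 * s) => i < j ∧ π j < π i).card := by
    unfold inv
    rw [card_filter, Fintype.sum_prod_type_right]
    apply sum_congr rfl
    intro j _
    rw [card_filter]
  rw [h1, winv]
  apply sum_congr rfl
  intro j _
  have hcnt := cnt_add w (show j.1 ≤ 2 * s by omega)
  have hbal := word_ballot (chains s) rfl hπ j.1 (by omega)
  rw [← hw] at hbal
  cases h2 : w j
  · have : (univ.filter fun i : Fin (2 * s) => i < j ∧ π j < π i) =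
        (univ.filter fun i : Fin (2 * s) => i.1 < j.1) := by
      ext i
      simp only [mem_filter, mem_univ, true_and]
      constructor
      · rintro ⟨h3, -⟩
        exact h3
      · intro h3
        refine ⟨h3, ?_⟩
        have h4 := noninv hπ (show i < j from h3)
        rw [← hw, h2] at h4
        simp at h4
        apply lt_of_le_of_ne h4
        intro h5
        have := π.injective h5
        rw [this] at h3
        omega
    rw [this]
    have e : (univ.filter fun i : Fin (2 * s) => i.1 < j.1) = Finset.Iio j := by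
      ext i
      simp only [mem_filter, mem_univ, true_and, mem_Iio]
      exact Iff.rfl
    rw [e, Fin.card_Iio]
    simp
  · have : (univ.filter fun i : Fin (2 * s) => i < j ∧ π j < π i) =
        (univ.filter fun i : Fin (2 * s) => i.1 < j.1 ∧ w i = true) ∪
        (univ.filter fun i : Fin (2 * s) => i.1 < j.1 ∧ w i = false ∧ cnt w false i < cnt w true j)
        := by
      ext i
      simp only [mem_filter, mem_univ, true_and, mem_union]
      constructor
      · rintro ⟨h3, h4⟩
        have h5 := noninv hπ h3
        rw [← hw, h2] at h5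
        cases h6 : w i
        · right
          refine ⟨h3, rfl, ?_⟩
          by_contra h7
          push Not at h7
          exact absurd (h5.2 ⟨h6, rfl, h7⟩) (not_lt.2 h4.le)
        · exact Or.inl ⟨h3, rfl⟩
      · intro h3
        have hij : i < j := by
          rcases h3 with h3 | h3
          · exact h3.1
          · exact h3.1
        refine ⟨hij, ?_⟩
        have h5 := noninv hπ hij
        rw [← hw, h2] at h5
        have h6 : ¬ π i < π j := by
          rw [h5]
          rintro ⟨h7, -, h8⟩
          rcases h3 with h3 | h3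
          · rw [h3.2] at h7
            simp at h7
          · omega
        apply lt_of_le_of_ne (not_lt.1 h6)
        intro h7
        have := π.injective h7
        rw [this] at hij
        exact absurd hij (lt_irrefl _)
    rw [this, card_union_of_disjoint]
    · have h8 := card_lt w false (cnt w true j) j.1 (by omega)
      rw [h8]
      change cnt w true j.1 + _ = _
      simp only [if_true]
      omega
    · rw [disjoint_left]
      intro i
      simp only [mem_filter, mem_univ, true_and]
      rintro ⟨-, h3⟩ ⟨-, h4, -⟩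
      rw [h3] at h4
      simp at h4

/-- the weights -/
noncomputable def u (i : ℕ) (_ c : Bool) (a : ℕ) : ℤ[X] :=
  if c = true then X ^ (2 * (i - a)) else if 2 * a ≤ i + 1 then X ^ i else 0

lemma low_iff {m : ℕ} (w : Fin m → Bool) :
    Low w ↔ ∀ i : Fin m, w i = false → 2 * cnt w false i ≤ i.1 + 1 := by
  constructor
  · intro h i hi
    have h1 := h (i.1 + 1) (by omega)
    have h2 := cnt_succ w false i
    have h3 := cnt_succ w true i
    rw [hi] at h2 h3
    simp at h2 h3
    have h4 := cnt_add w (show i.1 ≤ m by omega)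
    omega
  · intro h i
    induction i with
    | zero =>
      intro _
      simp [cnt]
    | succ i ih =>
      intro hi
      have ih := ih (by omega)
      have h2 := cnt_succ w false ⟨i, by omega⟩
      have h3 := cnt_succ w true ⟨i, by omega⟩
      have h4 := cnt_add w (show i ≤ m by omega)
      have h5 := h ⟨i, by omega⟩
      simp only at h2 h3 h5
      cases h6 : w ⟨i, by omega⟩
      · have h5 := h5 h6
        rw [h6] at h2 h3
        simp at h2 h3
        omega
      · rw [h6] at h2 h3
        simp at h2 h3
        omega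

open Classical in
lemma wt_eq {m : ℕ} (w : Fin m → Bool) : wt u w = if Low w then X ^ winv w else 0 := by
  split_ifs with h
  · rw [low_iff] at h
    unfold wt winv
    rw [← prod_pow_eq_pow_sum]
    apply prod_congr rfl
    intro j _
    unfold u
    split_ifs with h1 h2
    · rfl
    · rfl
    · rw [Bool.not_eq_true] at h1
      exact absurd (h j h1) h2
  · rw [low_iff] at h
    push Not at h
    obtain ⟨i, hi, hi2⟩ := h
    unfold wt
    apply prod_eq_zero (mem_univ i)
    unfold u
    rw [if_neg (by rw [hi]; simp), if_neg (by omega)]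

/-- the recursion -/
noncomputable def S (m a : ℕ) : ℤ[X] := D u m a false + D u m a true

lemma S_rec (m a : ℕ) : S (m + 1) (a + 1) =
    (if 2 * a ≤ m + 1 then X ^ m * S m a else 0) +
      (if m + 1 ≤ 2 * (a + 1) then X ^ (2 * (m - (a + 1))) * S m (a + 1) else 0) := by
  unfold S
  rw [D_false_succ, D_true]
  simp only [u]
  simp
  split_ifs <;> ring

lemma S_high (m : ℕ) : ∀ a, m + 3 ≤ 2 * a → S m a = 0 := by
  induction m with
  | zero =>
    intro a ha
    obtain ⟨b, rfl⟩ : ∃ b, a = b + 1 := ⟨a - 1, by omega⟩
    rw [S, D_zero', D_zero'', add_zero]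
  | succ m ih =>
    intro a ha
    obtain ⟨b, rfl⟩ : ∃ b, a = b + 1 := ⟨a - 1, by omega⟩
    rw [S_rec, if_neg (by omega), ih (b + 1) (by omega)]
    simp

lemma S_low (m : ℕ) : ∀ a, 2 * a < m → S m a = 0 := by
  induction m with
  | zero =>
    intro a ha
    omega
  | succ m ih =>
    intro a ha
    cases a with
    | zero =>
      rw [S, D_false_zero, D_true, if_neg (by omega), add_zero]
    | succ b =>
      rw [S_rec, ih b (by omega), if_neg (show ¬ m + 1 ≤ 2 * (b + 1) by omega)]
      simp

lemma S_main (n : ℕ) : S (2 * n + 1) (n + 1) = X ^ (2 * n * n - n) * (1 + X) ^ n := by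
  induction n with
  | zero =>
    rw [S_rec]
    simp [S, D_zero, D_zero', D_zero'']
  | succ n ih =>
    have h1 : S (2 * (n + 1)) (n + 1) = X ^ (2 * n) * S (2 * n + 1) (n + 1) := by
      have : 2 * (n + 1) = (2 * n + 1) + 1 := by ring
      rw [this, S_rec, if_pos (by omega), if_pos (by omega), S_low (2 * n + 1) n (by omega)]
      have e : 2 * (2 * n + 1 - (n + 1)) = 2 * n := by omega
      rw [e]
      ring
    have h2 : S (2 * (n + 1)) (n + 1 + 1) = X ^ (2 * n + 1) * S (2 * n + 1) (n + 1) := by
      have : 2 * (n + 1) = (2 * n + 1) + 1 := by ring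
      rw [this, S_rec, if_pos (by omega), S_high (2 * n + 1) (n + 1 + 1) (by omega)]
      simp
    rw [S_rec, if_pos (by omega), if_pos (by omega), h1, h2, ih]
    have e1 : 2 * (2 * (n + 1) - (n + 1 + 1)) = 2 * n := by omega
    have e2 : 2 * (n + 1) * (n + 1) - (n + 1) = (2 * n * n - n) + (4 * n + 1) := by
      have : n ≤ 2 * n * n := by
        rcases Nat.eq_zero_or_pos n with h | h
        · simp [h]
        · nlinarith
      have e3 : 2 * (n + 1) * (n + 1) = 2 * n * n + 4 * n + 2 := by ring
      omega
    rw [e1, e2]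
    ring

open Classical in
/-- For every `s ≥ 1` the inversion polynomial of the `2143`-avoiding linear extensions of `EN_{s,2}` is
`q^((2s-1)(s-1)) (1+q)^(s-1)`. -/
theorem result (s : ℕ) (hs : 1 ≤ s) :
    ∑ π ∈ univ.filter (fun π : Equiv.Perm (Fin (2 * s)) => LE (ENle 2) π ∧ Avoids2143 π),
      (X : ℤ[X]) ^ inv π = X ^ ((2 * s - 1) * (s - 1)) * (1 + X) ^ (s - 1) := by
  rw [sum_linExt (chains s) rfl (fun π => Avoids2143 π) (fun w => Low w)
    (fun π => (X : ℤ[X]) ^ inv π) (fun w => wt u w)]
  · have h1 : ∑ w ∈ univ.filter (fun w : Fin (2 * s) → Bool => Cat w ∧ Low w), wt u w =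
        ∑ w ∈ univ.filter (fun w : Fin (2 * s) → Bool => Cat w), wt u w := by
      rw [filter_and, ← sum_filter_add_sum_filter_not (univ.filter fun w : Fin (2 * s) → Bool => Cat w)
        (fun w => Low w)]
      rw [← filter_and, filter_filter]
      conv_lhs => rw [← add_zero (∑ w ∈ _, _)]
      congr 1
      symm
      apply sum_eq_zero
      intro w hw
      simp only [mem_filter] at hw
      rw [wt_eq, if_neg hw.2]
    rw [h1, sum_cat u rfl]
    obtain ⟨n, rfl⟩ : ∃ n, s = n + 1 := ⟨s - 1, by omega⟩
    change S (2 * (n + 1)) (n + 1) = _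
    have : 2 * (n + 1) = (2 * n + 1) + 1 := by ring
    rw [this, S_rec, if_pos (by omega), if_pos (by omega), S_low (2 * n + 1) n (by omega), S_main]
    have e : 2 * (2 * n + 1 - (n + 1)) = 2 * n := by omega
    have e2 : (2 * n + 1 + 1 - 1) * (n + 1 - 1) = (2 * n * n - n) + 2 * n := by
      have : n ≤ 2 * n * n := by
        rcases Nat.eq_zero_or_pos n with h | h
        · simp [h]
        · nlinarith
      have e3 : (2 * n + 1 + 1 - 1) * (n + 1 - 1) = 2 * n * n + n := by
        simp only [Nat.add_sub_cancel]; ring
      omega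
    rw [e, e2, Nat.add_sub_cancel]
    ring
  · intro π hπ
    exact avoids_iff hπ
  · intro π hπ hav
    rw [wt_eq, if_pos ((avoids_iff hπ).1 hav), inv_eq hπ]

end Pool.Agent.Results.MP_490dbb_co.InvENs2
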